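import Pool.Agent.Q112.AK.Count

/-!
Arithmetic Kakeya for sets closed under weak near unanimity operations: the algebra.
-/

set_option autoImplicit false
set_option linter.unusedSectionVars false

open Finset Relation

namespace Q112.AK

variable {V : Type*} [AddCommGroup V] [Module ℚ V]

/-- the projection in the direction `s` -/
def pr (s : ℚ × ℚ) (a : V × V) : V := s.1 • a.1 + s.2 • a.2

lemma pr_sub (s : ℚ × ℚ) (a b : V × V) : pr s (a - b) = pr s a - pr s b := by
  unfold pr
  rw [Prod.fst_sub, Prod.snd_sub, smul_sub, smul_sub]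
  abel

/-- two independent projections determine a point -/
lemma eq_of_pr {s t : ℚ × ℚ} (h : s.1 * t.2 ≠ t.1 * s.2) {a b : V × V} (hs : pr s a = pr s b)
    (ht : pr t a = pr t b) : a = b := by
  have h1 : pr s (a - b) = 0 := by rw [pr_sub, hs, sub_self]
  have h2 : pr t (a - b) = 0 := by rw [pr_sub, ht, sub_self]
  have hd : s.1 * t.2 - t.1 * s.2 ≠ 0 := sub_ne_zero.2 h
  set u := a - b with hu
  unfold pr at h1 h2
  have e1 : (s.1 * t.2 - t.1 * s.2) • u.1 = 0 := by
    have : (s.1 * t.2 - t.1 * s.2) • u.1 = t.2 • (s.1 • u.1 + s.2 • u.2) - s.2 • (t.1 • u.1 + t.2 • u.2) := by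
      module
    rw [this, h1, h2, smul_zero, smul_zero, sub_zero]
  have e2 : (s.1 * t.2 - t.1 * s.2) • u.2 = 0 := by
    have : (s.1 * t.2 - t.1 * s.2) • u.2 = s.1 • (t.1 • u.1 + t.2 • u.2) - t.1 • (s.1 • u.1 + s.2 • u.2) := by
      module
    rw [this, h1, h2, smul_zero, smul_zero, sub_zero]
  have f1 := (smul_eq_zero.1 e1).resolve_left hd
  have f2 := (smul_eq_zero.1 e2).resolve_left hd
  have : u = 0 := Prod.ext f1 f2
  exact sub_eq_zero.1 this

section
variable {ι : Type*} {n : ℕ} [DecidableEq V]

/-- the data: a finite set `A` with an operation `W` which induces operations of the projections -/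
structure Sys (s : ι → ℚ × ℚ) (A : Finset (V × V)) (w : ι → (Fin n → V) → V)
    (W : (Fin n → V × V) → V × V) : Prop where
  mem : ∀ a, (∀ l, a l ∈ A) → W a ∈ A
  eq : ∀ a, (∀ l, a l ∈ A) → ∀ i, pr (s i) (W a) = w i fun l => pr (s i) (a l)
  idem : ∀ i, ∀ a ∈ A, w i (fun _ => pr (s i) a) = pr (s i) a

/-- members of `A` with the same projection in a direction `i ∈ I` -/
def Cn (s : ι → ℚ × ℚ) (A : Finset (V × V)) (I : Set ι) (a b : V × V) : Prop :=
  a ∈ A ∧ b ∈ A ∧ ∃ i ∈ I, pr (s i) a = pr (s i) b

variable {s : ι → ℚ × ℚ} {A : Finset (V × V)} {w : ι → (Fin n → V) → V} {W : (Fin n → V × V) → V × V}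
    {I : Set ι} {k : ι}

/-- the parameters may be changed: one step -/
lemma step (hS : Sys s A w W) (hind : ∀ i ∈ I, (s i).1 * (s k).2 ≠ (s k).1 * (s i).2)
    {a b : V × V} (ha : a ∈ A) (hb : b ∈ A) (hk : pr (s k) a = pr (s k) b)
    (h : Fin n → V × V) (hh : ∀ l, h l ∈ A) {j l : Fin n} (_hjl : j ≠ l) {v v' : V × V}
    (hv : Cn s A I v v') :
    W (Function.update (Function.update h l v) j b) - W (Function.update (Function.update h l v) j a) =
    W (Function.update (Function.update h l v') j b) - W (Function.update (Function.update h l v') j a) := by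
  obtain ⟨hvA, hvA', i, hi, hvv⟩ := hv
  have mem : ∀ u ∈ A, ∀ c ∈ A, ∀ m, Function.update (Function.update h l u) j c m ∈ A := by
    intro u hu c hc m
    by_cases h1 : m = j
    · rw [h1, Function.update_self]; exact hc
    · rw [Function.update_of_ne h1]
      by_cases h2 : m = l
      · rw [h2, Function.update_self]; exact hu
      · rw [Function.update_of_ne h2]; exact hh m
  -- the projection `i` does not see the change of `v`
  have hpi : ∀ c ∈ A, pr (s i) (W (Function.update (Function.update h l v) j c)) =
      pr (s i) (W (Function.update (Function.update h l v') j c)) := by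
    intro c hc
    rw [hS.eq _ (mem v hvA c hc), hS.eq _ (mem v' hvA' c hc)]
    congr 1
    ext1 m
    by_cases h1 : m = j
    · rw [h1, Function.update_self, Function.update_self]
    · rw [Function.update_of_ne h1, Function.update_of_ne h1]
      by_cases h2 : m = l
      · rw [h2, Function.update_self, Function.update_self]; exact hvv
      · rw [Function.update_of_ne h2, Function.update_of_ne h2]
  -- the projection `k` does not see the change from `a` to `b`
  have hpk : ∀ u ∈ A, pr (s k) (W (Function.update (Function.update h l u) j b)) =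
      pr (s k) (W (Function.update (Function.update h l u) j a)) := by
    intro u hu
    rw [hS.eq _ (mem u hu b hb), hS.eq _ (mem u hu a ha)]
    congr 1
    ext1 m
    by_cases h1 : m = j
    · rw [h1, Function.update_self, Function.update_self]; exact hk.symm
    · rw [Function.update_of_ne h1, Function.update_of_ne h1]
  refine eq_of_pr (hind i hi) ?_ ?_
  · rw [pr_sub, pr_sub, hpi b hb, hpi a ha]
  · rw [pr_sub, pr_sub, hpk v hvA, hpk v' hvA', sub_self, sub_self]

/-- the parameters may be changed: a path -/
lemma steps (hS : Sys s A w W) (hind : ∀ i ∈ I, (s i).1 * (s k).2 ≠ (s k).1 * (s i).2)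
    {a b : V × V} (ha : a ∈ A) (hb : b ∈ A) (hk : pr (s k) a = pr (s k) b)
    (h : Fin n → V × V) (hh : ∀ l, h l ∈ A) {j l : Fin n} (hjl : j ≠ l) {v v' : V × V}
    (hv : ReflTransGen (Cn s A I) v v') :
    W (Function.update (Function.update h l v) j b) - W (Function.update (Function.update h l v) j a) =
    W (Function.update (Function.update h l v') j b) - W (Function.update (Function.update h l v') j a) := by
  induction hv with
  | refl => rfl
  | tail _ hbc ih => exact ih.trans (step hS hind ha hb hk h hh hjl hbc)

/-- `b` in the positions `J`, `a` in the others -/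
noncomputable def E (W : (Fin n → V × V) → V × V) (a b : V × V) (J : Finset (Fin n)) : V × V :=
  W fun l => if l ∈ J then b else a

lemma E_mem (hS : Sys s A w W) {a b : V × V} (ha : a ∈ A) (hb : b ∈ A) (J : Finset (Fin n)) :
    E W a b J ∈ A := hS.mem _ fun l => by split_ifs <;> assumption

/-- additivity -/
lemma E_insert (hS : Sys s A w W) (hind : ∀ i ∈ I, (s i).1 * (s k).2 ≠ (s k).1 * (s i).2)
    {a b : V × V} (ha : a ∈ A) (hb : b ∈ A) (hk : pr (s k) a = pr (s k) b)
    (hab : ReflTransGen (Cn s A I) a b) (J : Finset (Fin n)) :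
    ∀ j, j ∉ J → E W a b (insert j J) - E W a b J = E W a b {j} - E W a b ∅ := by
  induction J using Finset.induction_on with
  | empty => intro j _; rfl
  | insert l J hl ih =>
    intro j hj
    rw [mem_insert, not_or] at hj
    rw [← ih j hj.2]
    set h : Fin n → V × V := fun m => if m ∈ J then b else a with hh
    have hmem : ∀ m, h m ∈ A := fun m => by rw [hh]; simp only; split_ifs <;> assumption
    have e1 : E W a b (insert j (insert l J)) = W (Function.update (Function.update h l b) j b) := by
      unfold E
      congr 1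
      ext1 m
      by_cases h1 : m = j
      · rw [h1, Function.update_self, if_pos (mem_insert_self _ _)]
      · rw [Function.update_of_ne h1]
        by_cases h2 : m = l
        · rw [h2, Function.update_self, if_pos (mem_insert_of_mem (mem_insert_self _ _))]
        · rw [Function.update_of_ne h2, hh]
          simp only [mem_insert, h1, h2, false_or]
    have e2 : E W a b (insert l J) = W (Function.update (Function.update h l b) j a) := by
      unfold E
      congr 1
      ext1 m
      by_cases h1 : m = j
      · rw [h1, Function.update_self, if_neg (by rw [mem_insert, not_or]; exact hj)]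
      · rw [Function.update_of_ne h1]
        by_cases h2 : m = l
        · rw [h2, Function.update_self, if_pos (mem_insert_self _ _)]
        · rw [Function.update_of_ne h2, hh]
          simp only [mem_insert, h2, false_or]
    have e3 : E W a b (insert j J) = W (Function.update (Function.update h l a) j b) := by
      unfold E
      congr 1
      ext1 m
      by_cases h1 : m = j
      · rw [h1, Function.update_self, if_pos (mem_insert_self _ _)]
      · rw [Function.update_of_ne h1]
        by_cases h2 : m = l
        · rw [h2, Function.update_self, if_neg (by rw [mem_insert, not_or]; exact ⟨Ne.symm hj.1, hl⟩)]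
        · rw [Function.update_of_ne h2, hh]
          simp only [mem_insert, h1, false_or]
    have e4 : E W a b J = W (Function.update (Function.update h l a) j a) := by
      unfold E
      congr 1
      ext1 m
      by_cases h1 : m = j
      · rw [h1, Function.update_self, if_neg hj.2]
      · rw [Function.update_of_ne h1]
        by_cases h2 : m = l
        · rw [h2, Function.update_self, if_neg hl]
        · rw [Function.update_of_ne h2]
    rw [e1, e2, e3, e4]
    exact (steps hS hind ha hb hk h hmem hj.1 hab).symm

lemma W_const (hS : Sys s A w W) {i j : ι} (hij : (s i).1 * (s j).2 ≠ (s j).1 * (s i).2) {a : V × V}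
    (ha : a ∈ A) : W (fun _ => a) = a := by
  refine eq_of_pr hij ?_ ?_
  · rw [hS.eq _ fun _ => ha]; exact hS.idem i a ha
  · rw [hS.eq _ fun _ => ha]; exact hS.idem j a ha

/-- the sum of the changes -/
lemma E_sum (hS : Sys s A w W) (hind : ∀ i ∈ I, (s i).1 * (s k).2 ≠ (s k).1 * (s i).2)
    {a b : V × V} (ha : a ∈ A) (hb : b ∈ A) (hk : pr (s k) a = pr (s k) b)
    (hab : ReflTransGen (Cn s A I) a b) (J : Finset (Fin n)) :
    E W a b J - E W a b ∅ = ∑ j ∈ J, (E W a b {j} - E W a b ∅) := by
  induction J using Finset.induction_on with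
  | empty => simp
  | insert j J hj ih =>
    rw [sum_insert hj, ← ih, ← E_insert hS hind ha hb hk hab J j hj]
    abel

/-- division by `n` -/
lemma divide (hS : Sys s A w W) (hn : 0 < n) (hind : ∀ i ∈ I, (s i).1 * (s k).2 ≠ (s k).1 * (s i).2)
    {i0 : ι} (hi0 : i0 ∈ I)
    (hwnu : ∀ x ∈ A, ∀ y ∈ A, ∀ i j : Fin n, w i0 (Function.update (fun _ => pr (s i0) x) i (pr (s i0) y)) =
      w i0 (Function.update (fun _ => pr (s i0) x) j (pr (s i0) y)))
    {a b : V × V} (ha : a ∈ A) (hb : b ∈ A) (hk : pr (s k) a = pr (s k) b)
    (hab : ReflTransGen (Cn s A I) a b) :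
    ∃ e ∈ A, pr (s k) a = pr (s k) e ∧ ReflTransGen (Cn s A I) a e ∧ b - a = (n : ℚ) • (e - a) := by
  have hc := W_const hS (hind i0 hi0) ha
  have hcb := W_const hS (hind i0 hi0) hb
  have e0 : E W a b ∅ = a := by
    unfold E
    simpa using hc
  have e1 : E W a b univ = b := by
    unfold E
    simpa using hcb
  have esing : ∀ j : Fin n, E W a b {j} = W (Function.update (fun _ => a) j b) := by
    intro j
    unfold E
    congr 1
    ext1 m
    by_cases h1 : m = j
    · rw [h1, Function.update_self, if_pos (mem_singleton_self _)]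
    · rw [Function.update_of_ne h1, if_neg (by rwa [mem_singleton])]
  have hmem : ∀ j : Fin n, ∀ v ∈ A, ∀ m, Function.update (fun _ : Fin n => a) j v m ∈ A := by
    intro j v hv m
    by_cases h1 : m = j
    · rw [h1, Function.update_self]; exact hv
    · rw [Function.update_of_ne h1]; exact ha
  have hprk : ∀ j : Fin n, ∀ v ∈ A, pr (s k) a = pr (s k) v →
      pr (s k) (W (Function.update (fun _ => a) j v)) = pr (s k) a := by
    intro j v hv hav
    rw [hS.eq _ (hmem j v hv)]
    refine Eq.trans ?_ (hS.idem k a ha)
    congr 1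
    ext1 m
    by_cases h1 : m = j
    · rw [h1, Function.update_self]; exact hav.symm
    · rw [Function.update_of_ne h1]
  have heq : ∀ i j : Fin n, W (Function.update (fun _ => a) i b) = W (Function.update (fun _ => a) j b) := by
    intro i j
    refine eq_of_pr (hind i0 hi0) ?_ ?_
    · rw [hS.eq _ (hmem i b hb), hS.eq _ (hmem j b hb)]
      have e : ∀ j : Fin n, (fun l => pr (s i0) (Function.update (fun _ : Fin n => a) j b l)) =
          Function.update (fun _ => pr (s i0) a) j (pr (s i0) b) := by
        intro j
        ext1 m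
        by_cases h1 : m = j
        · rw [h1, Function.update_self, Function.update_self]
        · rw [Function.update_of_ne h1, Function.update_of_ne h1]
      rw [e, e]
      exact hwnu a ha b hb i j
    · rw [hprk i b hb hk, hprk j b hb hk]
  obtain ⟨j0⟩ : Nonempty (Fin n) := ⟨⟨0, hn⟩⟩
  refine ⟨W (Function.update (fun _ => a) j0 b), hS.mem _ (hmem j0 b hb), (hprk j0 b hb hk).symm, ?_, ?_⟩
  · have h1 : ReflTransGen (Cn s A I) (W (Function.update (fun _ => a) j0 a))
        (W (Function.update (fun _ => a) j0 b)) := by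
      refine ReflTransGen.lift (fun v => W (Function.update (fun _ => a) j0 v)) ?_ _ _ hab
      rintro u v ⟨hu, hv, i, hi, huv⟩
      refine ⟨hS.mem _ (hmem j0 u hu), hS.mem _ (hmem j0 v hv), i, hi, ?_⟩
      rw [hS.eq _ (hmem j0 u hu), hS.eq _ (hmem j0 v hv)]
      congr 1
      ext1 m
      by_cases h1 : m = j0
      · rw [h1, Function.update_self, Function.update_self]; exact huv
      · rw [Function.update_of_ne h1, Function.update_of_ne h1]
    have h2 : Function.update (fun _ : Fin n => a) j0 a = fun _ => a := Function.update_eq_self_iff.2 rfl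
    rwa [h2, hc] at h1
  · have h1 := E_sum hS hind ha hb hk hab univ
    rw [e1, e0] at h1
    rw [h1]
    have h2 : ∀ j ∈ (univ : Finset (Fin n)), E W a b {j} - a = W (Function.update (fun _ => a) j0 b) - a := by
      intro j _
      rw [esing, heq j j0]
    rw [sum_congr rfl h2, sum_const, card_univ, Fintype.card_fin, Nat.cast_smul_eq_nsmul]

/-- **The key lemma.** -/
theorem key (hS : Sys s A w W) (hn : 2 ≤ n) (hind : ∀ i ∈ I, (s i).1 * (s k).2 ≠ (s k).1 * (s i).2)
    {i0 : ι} (hi0 : i0 ∈ I)
    (hwnu : ∀ x ∈ A, ∀ y ∈ A, ∀ i j : Fin n, w i0 (Function.update (fun _ => pr (s i0) x) i (pr (s i0) y)) =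
      w i0 (Function.update (fun _ => pr (s i0) x) j (pr (s i0) y)))
    {a b : V × V} (ha : a ∈ A) (hb : b ∈ A) (hk : pr (s k) a = pr (s k) b)
    (hab : ReflTransGen (Cn s A I) a b) : a = b := by
  have hn0 : (n : ℚ) ≠ 0 := by
    have : n ≠ 0 := by omega
    exact_mod_cast this
  have h1 : ∀ m : ℕ, ∃ e ∈ A, pr (s k) a = pr (s k) e ∧ ReflTransGen (Cn s A I) a e ∧
      b - a = ((n : ℚ) ^ m) • (e - a) := by
    intro m
    induction m with
    | zero => exact ⟨b, hb, hk, hab, by rw [pow_zero, one_smul]⟩
    | succ m ih =>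
      obtain ⟨e, he, hek, hae, hbe⟩ := ih
      obtain ⟨e', he', hek', hae', hbe'⟩ := divide hS (by omega) hind hi0 hwnu ha he hek hae
      refine ⟨e', he', hek', hae', ?_⟩
      rw [hbe, hbe', smul_smul, pow_succ]
  choose e he _ _ hbe using h1
  obtain ⟨i, j, hij, hee⟩ := Finite.exists_ne_map_eq_of_infinite (fun m : ℕ => (⟨e m, he m⟩ : A))
  have hee' : e i = e j := congrArg Subtype.val hee
  have h2 : ((n : ℚ) ^ i - (n : ℚ) ^ j) • (e j - a) = 0 := by
    have h3 := hbe i
    rw [hee', hbe j] at h3
    rw [sub_smul, ← h3, sub_self]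
  have h3 : (n : ℚ) ^ i - (n : ℚ) ^ j ≠ 0 := by
    intro h4
    have h5 : n ^ i = n ^ j := by exact_mod_cast sub_eq_zero.1 h4
    exact hij (Nat.pow_right_injective hn h5)
  have h4 := (smul_eq_zero.1 h2).resolve_left h3
  have h5 := hbe j
  rw [h4, smul_zero] at h5
  exact (sub_eq_zero.1 h5).symm

end

end Q112.AK
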