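import Mathlib

/-!
The counting lemma: a finite set with maps `f 0, …, f k` such that for `1 ≤ j ≤ k` elements which are
connected through the maps `f 0, …, f (j - 1)` and have the same value of `f j` are equal.
-/

set_option autoImplicit false
set_option linter.unusedSectionVars false

open Finset Relation

namespace Q112.AK

section
variable {α β : Type*} [DecidableEq α] [DecidableEq β]

/-- members of `A` with the same value of one of the maps `f i`, `i < j` -/
def Lk (f : ℕ → α → β) (A : Finset α) (j : ℕ) (a b : α) : Prop :=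
  a ∈ A ∧ b ∈ A ∧ ∃ i < j, f i a = f i b

lemma Lk.symm {f : ℕ → α → β} {A : Finset α} {j : ℕ} {a b : α} (h : Lk f A j a b) : Lk f A j b a :=
  ⟨h.2.1, h.1, h.2.2.imp fun _ hi => ⟨hi.1, hi.2.symm⟩⟩

lemma LL.symm {f : ℕ → α → β} {A : Finset α} {j : ℕ} {a b : α} (h : ReflTransGen (Lk f A j) a b) :
    ReflTransGen (Lk f A j) b a := by
  induction h with
  | refl => exact ReflTransGen.refl
  | tail _ hbc ih => exact ReflTransGen.head hbc.symm ih

lemma LL.mono {f : ℕ → α → β} {A B : Finset α} {j : ℕ} {a b : α} (hAB : A ⊆ B)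
    (h : ReflTransGen (Lk f A j) a b) : ReflTransGen (Lk f B j) a b :=
  ReflTransGen.mono (p := Lk f B j) (fun _ _ hab => ⟨hAB hab.1, hAB hab.2.1, hab.2.2⟩) _ _ h

/-- Hölder's inequality for `n` factors with a constant -/
lemma holder {ι : Type*} (I : Finset ι) (n : ℕ) (hn : 0 < n) (a : ι → ℝ) (x : ℕ → ι → ℝ) (N : ℝ)
    (hN : 0 ≤ N) (ha : ∀ i ∈ I, 0 ≤ a i) (hx : ∀ j ∈ range n, ∀ i ∈ I, 0 ≤ x j i)
    (h : ∀ i ∈ I, a i ^ n ≤ N * ∏ j ∈ range n, x j i) :
    (∑ i ∈ I, a i) ^ n ≤ N * ∏ j ∈ range n, ∑ i ∈ I, x j i := by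
  set S : ℕ → ℝ := fun j => ∑ i ∈ I, x j i with hS
  have hS0 : ∀ j ∈ range n, 0 ≤ S j := fun j hj => sum_nonneg (hx j hj)
  by_cases hz : ∃ j ∈ range n, S j = 0
  · obtain ⟨j, hj, hj0⟩ := hz
    have h1 : ∀ i ∈ I, a i = 0 := by
      intro i hi
      have h2 : x j i = 0 := (sum_eq_zero_iff_of_nonneg (hx j hj)).1 hj0 i hi
      have h3 := h i hi
      rw [prod_eq_zero hj h2, mul_zero] at h3
      exact pow_eq_zero_iff hn.ne' |>.1 (le_antisymm h3 (pow_nonneg (ha i hi) n))
    rw [sum_eq_zero h1, zero_pow hn.ne', prod_eq_zero hj hj0, mul_zero]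
  · push Not at hz
    have hS1 : ∀ j ∈ range n, 0 < S j := fun j hj => lt_of_le_of_ne (hS0 j hj) (hz j hj).symm
    have hn' : (0 : ℝ) < n := by exact_mod_cast hn
    set P : ℝ := N * ∏ j ∈ range n, S j with hP
    have hP0 : 0 ≤ P := mul_nonneg hN (prod_nonneg hS0)
    set Q : ℝ := P ^ (1 / (n : ℝ)) with hQ
    have hQ0 : 0 ≤ Q := Real.rpow_nonneg hP0 _
    have hQn : Q ^ n = P := by
      rw [hQ, ← Real.rpow_natCast, ← Real.rpow_mul hP0, one_div, inv_mul_cancel₀ hn'.ne', Real.rpow_one]
    have key : ∀ i ∈ I, a i ≤ Q * ∑ j ∈ range n, (1 / (n : ℝ)) * (x j i / S j) := by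
      intro i hi
      have h1 : ∏ j ∈ range n, (x j i / S j) ^ (1 / (n : ℝ)) ≤ ∑ j ∈ range n, (1 / (n : ℝ)) * (x j i / S j) := by
        refine Real.geom_mean_le_arith_mean_weighted (range n) (fun _ => 1 / (n : ℝ)) _ ?_ ?_ ?_
        · intro j _
          positivity
        · rw [sum_const, card_range, nsmul_eq_mul]
          field_simp
        · intro j hj
          exact div_nonneg (hx j hj i hi) (hS0 j hj)
      refine le_trans ?_ (mul_le_mul_of_nonneg_left h1 hQ0)
      have h0 : 0 ≤ ∏ j ∈ range n, (x j i / S j) ^ (1 / (n : ℝ)) :=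
        prod_nonneg fun j hj => Real.rpow_nonneg (div_nonneg (hx j hj i hi) (hS0 j hj)) _
      refine le_of_pow_le_pow_left₀ hn.ne' (mul_nonneg hQ0 h0) ?_
      rw [mul_pow, hQn, ← prod_pow]
      have h2 : ∀ j ∈ range n, ((x j i / S j) ^ (1 / (n : ℝ))) ^ n = x j i / S j := by
        intro j hj
        rw [← Real.rpow_natCast, ← Real.rpow_mul (div_nonneg (hx j hj i hi) (hS0 j hj)), one_div,
          inv_mul_cancel₀ hn'.ne', Real.rpow_one]
      rw [prod_congr rfl h2, hP, prod_div_distrib]
      refine (h i hi).trans (le_of_eq ?_)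
      have h3 : ∏ j ∈ range n, S j ≠ 0 := prod_ne_zero_iff.2 fun j hj => (hS1 j hj).ne'
      field_simp
    have h4 : ∑ i ∈ I, a i ≤ Q := by
      refine (sum_le_sum key).trans ?_
      rw [← mul_sum, sum_comm]
      have h5 : ∀ j ∈ range n, ∑ i ∈ I, (1 / (n : ℝ)) * (x j i / S j) = 1 / n := by
        intro j hj
        rw [← mul_sum, ← sum_div]
        change 1 / (n : ℝ) * (S j / S j) = 1 / n
        rw [div_self (hz j hj), mul_one]
      rw [sum_congr rfl h5, sum_const, card_range, nsmul_eq_mul]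
      have : Q * ((n : ℝ) * (1 / n)) = Q := by field_simp
      exact this.le
    calc (∑ i ∈ I, a i) ^ n ≤ Q ^ n := pow_le_pow_left₀ (sum_nonneg ha) h4 n
      _ = P := hQn

/-- the counting lemma -/
theorem count (f : ℕ → α → β) : ∀ (k : ℕ) (A : Finset α), A.Nonempty →
    (∀ j, 1 ≤ j → j ≤ k → ∀ a ∈ A, ∀ b ∈ A, ReflTransGen (Lk f A j) a b → f j a = f j b → a = b) →
    A.card ^ k ≤ ∏ i ∈ range (k + 1), (A.image (f i)).card := by
  classical
  intro k
  induction k with
  | zero =>
    intro A hA _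
    rw [pow_zero, zero_add, prod_range_one]
    exact card_pos.2 (hA.image _)
  | succ k ih =>
    intro A hA h
    let c : α → Set α := fun a => {b | ReflTransGen (Lk f A (k + 1)) a b}
    have hc : ∀ a b, ReflTransGen (Lk f A (k + 1)) a b → c a = c b := by
      intro a b hab
      ext g
      exact ⟨fun h => (LL.symm hab).trans h, fun h => hab.trans h⟩
    have hc' : ∀ a b, c a = c b → ReflTransGen (Lk f A (k + 1)) a b := by
      intro a b hab
      have : b ∈ c b := ReflTransGen.refl
      rw [← hab] at this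
      exact this
    set I := A.image c with hI
    let D : Set α → Finset α := fun i => A.filter fun a => c a = i
    have hDA : ∀ i, D i ⊆ A := fun i => filter_subset _ _
    have hsum : A.card = ∑ i ∈ I, (D i).card := card_eq_sum_card_image c A
    have hne : ∀ i ∈ I, (D i).Nonempty := by
      intro i hi
      obtain ⟨a, ha, rfl⟩ := mem_image.1 hi
      exact ⟨a, mem_filter.2 ⟨ha, rfl⟩⟩
    have h1 : ∀ i ∈ I, (D i).card ^ k ≤ ∏ j ∈ range (k + 1), ((D i).image (f j)).card := by
      intro i hi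
      refine ih (D i) (hne i hi) ?_
      intro j hj1 hjk a ha b hb hab hfj
      exact h j hj1 (by omega) a (hDA i ha) b (hDA i hb) (LL.mono (hDA i) hab) hfj
    have h2 : ∀ i, (D i).card ≤ (A.image (f (k + 1))).card := by
      intro i
      refine card_le_card_of_injOn (f (k + 1)) (fun a ha => mem_image_of_mem _ (hDA i ha)) ?_
      intro a ha b hb hab
      have ha' := mem_filter.1 ha
      have hb' := mem_filter.1 hb
      exact h (k + 1) (by omega) le_rfl a ha'.1 b hb'.1 (hc' _ _ (ha'.2.trans hb'.2.symm)) hab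
    have h3 : ∀ j ∈ range (k + 1), ∑ i ∈ I, ((D i).image (f j)).card ≤ (A.image (f j)).card := by
      intro j hj
      rw [← card_biUnion]
      · refine card_le_card ?_
        intro x hx
        obtain ⟨i, _, hxi⟩ := mem_biUnion.1 hx
        obtain ⟨a, ha, rfl⟩ := mem_image.1 hxi
        exact mem_image_of_mem _ (hDA i ha)
      · intro i _ i' _ hii
        change Disjoint ((D i).image (f j)) ((D i').image (f j))
        rw [disjoint_left]
        intro x hx hx'
        obtain ⟨g, hg, rfl⟩ := mem_image.1 hx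
        obtain ⟨g', hg', hgg'⟩ := mem_image.1 hx'
        rw [mem_filter] at hg hg'
        apply hii
        rw [← hg.2, ← hg'.2]
        exact hc _ _ (ReflTransGen.single ⟨hg.1, hg'.1, j, mem_range.1 hj, hgg'.symm⟩)
    have h4 := holder I (k + 1) (by omega) (fun i => ((D i).card : ℝ))
      (fun j i => (((D i).image (f j)).card : ℝ)) ((A.image (f (k + 1))).card : ℝ) (Nat.cast_nonneg _)
      (fun _ _ => Nat.cast_nonneg _) (fun _ _ _ _ => Nat.cast_nonneg _) ?_
    · have h5 : ((A.card : ℕ) : ℝ) ^ (k + 1) ≤ ((A.image (f (k + 1))).card : ℝ) *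
          ∏ j ∈ range (k + 1), ((A.image (f j)).card : ℝ) := by
        rw [hsum]
        push_cast
        refine h4.trans (mul_le_mul_of_nonneg_left ?_ (Nat.cast_nonneg _))
        refine prod_le_prod (fun j _ => sum_nonneg fun _ _ => Nat.cast_nonneg _) fun j hj => ?_
        exact_mod_cast h3 j hj
      rw [prod_range_succ, mul_comm]
      exact_mod_cast h5
    · intro i hi
      have h5 : (D i).card ^ (k + 1) ≤ (A.image (f (k + 1))).card *
          ∏ j ∈ range (k + 1), ((D i).image (f j)).card := by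
        rw [pow_succ, mul_comm]
        exact Nat.mul_le_mul (h2 i) (h1 i hi)
      exact_mod_cast h5

end

end Q112.AK
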