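import Mathlib

/-!
Arithmetic Kakeya for sets closed under weak near unanimity operations: the sets which show that the
exponent is optimal.
-/

set_option autoImplicit false
set_option linter.unusedSectionVars false

open Finset

namespace Q112.AK

/-- the slopes of the problem, `none` is the slope `∞` -/
def sl (r : Option ℚ) (a : ℤ × ℤ) : ℚ :=
  match r with
  | none => a.2
  | some r => a.1 + r * a.2

/-- the direction on which the slope `t` vanishes -/
def dir (t : Option ℚ) : ℤ × ℤ :=
  match t with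
  | none => (1, 0)
  | some q => (-q.num, q.den)

lemma sl_dir_self (t : Option ℚ) : sl t (dir t) = 0 := by
  cases t with
  | none => simp [sl, dir]
  | some q =>
    simp only [sl, dir]
    push_cast
    have := Rat.mul_den_eq_num q
    rw [this]
    ring

lemma sl_dir_ne {r t : Option ℚ} (h : r ≠ t) : sl r (dir t) ≠ 0 := by
  cases t with
  | none =>
    cases r with
    | none => exact absurd rfl h
    | some r => simp [sl, dir]
  | some q =>
    cases r with
    | none => simp [sl, dir]
    | some r =>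
      have hrq : r ≠ q := fun h' => h (by rw [h'])
      have hd : (q.den : ℚ) ≠ 0 := by exact_mod_cast q.den_nz
      have h1 : sl (some r) (dir (some q)) = (r - q) * q.den := by
        simp only [sl, dir]
        push_cast
        have := Rat.mul_den_eq_num q
        rw [← this]
        ring
      rw [h1]
      exact mul_ne_zero (sub_ne_zero.2 hrq) hd

variable {T : Finset (Option ℚ)} {m : ℕ}

/-- the points of the example -/
noncomputable def pt (T : Finset (Option ℚ)) (N : ℕ) (g : T → Fin m) : ℤ × ℤ :=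
  ∑ t : T, ((g t : ℕ) : ℤ) • ((N : ℤ) ^ (Fintype.equivFin T t).val) • dir t.1

lemma sl_sum {κ : Type*} (I : Finset κ) (r : Option ℚ) (c : κ → ℤ) (d : κ → ℤ × ℤ) :
    sl r (∑ t ∈ I, c t • d t) = ∑ t ∈ I, (c t : ℚ) * sl r (d t) := by
  classical
  induction I using Finset.induction_on with
  | empty => cases r <;> simp [sl]
  | insert t I ht ih =>
    rw [sum_insert ht, sum_insert ht, ← ih]
    cases r with
    | none => simp [sl]
    | some r =>
      simp only [sl, Prod.fst_add, Prod.snd_add, Prod.smul_fst, Prod.smul_snd, smul_eq_mul]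
      push_cast
      ring

lemma sl_pt (N : ℕ) (g : T → Fin m) (r : Option ℚ) :
    sl r (pt T N g) = ∑ t : T, ((g t : ℕ) : ℚ) * (N : ℚ) ^ (Fintype.equivFin T t).val * sl r (dir t.1) := by
  unfold pt
  have : ∀ t : T, ((g t : ℕ) : ℤ) • ((N : ℤ) ^ (Fintype.equivFin T t).val) • dir t.1 =
      (((g t : ℕ) : ℤ) * (N : ℤ) ^ (Fintype.equivFin T t).val) • dir t.1 := fun t => by rw [mul_smul]
  rw [sum_congr rfl fun t _ => this t, sl_sum]
  refine sum_congr rfl fun t _ => ?_
  push_cast
  ring

/-- `N` is generic -/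
lemma exists_generic (T : Finset (Option ℚ)) (m : ℕ) (R : Finset (Option ℚ)) :
    ∃ N : ℕ, ∀ r ∈ R, ∀ g g' : T → Fin m, sl r (pt T N g) = sl r (pt T N g') →
      ∀ t : T, t.1 ≠ r → g t = g' t := by
  classical
  -- the polynomials
  let P : Option ℚ → (T → Fin m) → (T → Fin m) → Polynomial ℚ := fun r g g' =>
    ∑ t : T, Polynomial.C ((((g t : ℕ) : ℚ) - ((g' t : ℕ) : ℚ)) * sl r (dir t.1)) *
      Polynomial.X ^ (Fintype.equivFin T t).val
  let B : Finset ℚ := (R ×ˢ ((univ : Finset (T → Fin m)) ×ˢ (univ : Finset (T → Fin m)))).biUnion fun p =>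
    (P p.1 p.2.1 p.2.2).roots.toFinset
  obtain ⟨N, hN⟩ : ∃ N : ℕ, (N : ℚ) ∉ B := by
    have h1 : (Set.range (fun N : ℕ => (N : ℚ))).Infinite :=
      Set.infinite_range_of_injective Nat.cast_injective
    obtain ⟨x, ⟨N, rfl⟩, hx⟩ := h1.exists_notMem_finset B
    exact ⟨N, hx⟩
  refine ⟨N, ?_⟩
  intro r hr g g' h t ht
  by_contra hne
  have hP : P r g g' ≠ 0 := by
    intro h0
    have h1 : (P r g g').coeff (Fintype.equivFin T t).val =
        (((g t : ℕ) : ℚ) - ((g' t : ℕ) : ℚ)) * sl r (dir t.1) := by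
      simp only [P, Polynomial.finsetSum_coeff, Polynomial.coeff_C_mul, Polynomial.coeff_X_pow]
      rw [Finset.sum_eq_single t]
      · simp
      · intro t' _ ht'
        have : (Fintype.equivFin T t).val ≠ (Fintype.equivFin T t').val := by
          intro h2
          exact ht' ((Fintype.equivFin T).injective (Fin.ext h2)).symm
        rw [if_neg this, mul_zero]
      · intro h2
        exact absurd (mem_univ t) h2
    rw [h0, Polynomial.coeff_zero] at h1
    have h2 : (((g t : ℕ) : ℚ) - ((g' t : ℕ) : ℚ)) ≠ 0 := by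
      intro h3
      apply hne
      have h4 : ((g t : ℕ) : ℚ) = ((g' t : ℕ) : ℚ) := sub_eq_zero.1 h3
      exact Fin.ext (by exact_mod_cast h4)
    exact mul_ne_zero h2 (sl_dir_ne (Ne.symm ht)) h1.symm
  apply hN
  refine mem_biUnion.2 ⟨(r, g, g'), mem_product.2 ⟨hr, mem_product.2 ⟨mem_univ _, mem_univ _⟩⟩, ?_⟩
  rw [Multiset.mem_toFinset, Polynomial.mem_roots hP, Polynomial.IsRoot.def]
  simp only [P, Polynomial.eval_finsetSum, Polynomial.eval_mul, Polynomial.eval_C,
    Polynomial.eval_pow, Polynomial.eval_X]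
  rw [sl_pt, sl_pt] at h
  have h1 : ∀ t : T, (((g t : ℕ) : ℚ) - ((g' t : ℕ) : ℚ)) * sl r (dir t.1) *
      (N : ℚ) ^ (Fintype.equivFin T t).val =
      ((g t : ℕ) : ℚ) * (N : ℚ) ^ (Fintype.equivFin T t).val * sl r (dir t.1) -
      ((g' t : ℕ) : ℚ) * (N : ℚ) ^ (Fintype.equivFin T t).val * sl r (dir t.1) := fun t => by ring
  rw [sum_congr rfl fun t _ => h1 t, sum_sub_distrib, h, sub_self]

/-- the slope `r` depends only on the coordinates different from `r` -/
lemma sl_pt_congr (N : ℕ) {r : Option ℚ} {g g' : T → Fin m} (h : ∀ t : T, t.1 ≠ r → g t = g' t) :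
    sl r (pt T N g) = sl r (pt T N g') := by
  rw [sl_pt, sl_pt]
  refine sum_congr rfl fun t _ => ?_
  by_cases ht : t.1 = r
  · rw [ht, sl_dir_self, mul_zero, mul_zero]
  · rw [h t ht]

/-- **The example.** -/
theorem example_exists (T : Finset (Option ℚ)) (hT : some (-1) ∉ T) (m n : ℕ) (hm : 0 < m)
    (τ : (Fin n → Fin m) → Fin m) (hidem : ∀ x, τ (fun _ => x) = x)
    (hwnu : ∀ i j : Fin n, ∀ x y, τ (Function.update (fun _ => x) i y) = τ (Function.update (fun _ => x) j y)) :
    ∃ (A : Finset (ℤ × ℤ)) (w : Option ℚ → (Fin n → ℚ) → ℚ),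
      (∀ r ∈ T, ∀ x ∈ A.image (sl r), w r (fun _ => x) = x) ∧
      (∀ r ∈ T, ∀ x ∈ A.image (sl r), ∀ y ∈ A.image (sl r), ∀ i j : Fin n,
        w r (Function.update (fun _ => x) i y) = w r (Function.update (fun _ => x) j y)) ∧
      (∀ a : Fin n → ℤ × ℤ, (∀ l, a l ∈ A) → ∃ b ∈ A, ∀ r ∈ T, sl r b = w r fun l => sl r (a l)) ∧
      A.card = m ^ T.card ∧ (A.image (sl (some (-1)))).card = m ^ T.card ∧
      ∀ r ∈ T, (A.image (sl r)).card = m ^ (T.card - 1) := by
  classical
  obtain ⟨N, hN⟩ := exists_generic T m (insert (some (-1)) T)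
  have : Nonempty (Fin m) := ⟨⟨0, hm⟩⟩
  set A : Finset (ℤ × ℤ) := univ.image (pt T N : (T → Fin m) → ℤ × ℤ) with hA
  have hinj1 : ∀ g g' : T → Fin m, sl (some (-1)) (pt T N g) = sl (some (-1)) (pt T N g') → g = g' := by
    intro g g' h
    ext1 t
    refine hN _ (mem_insert_self _ _) g g' h t ?_
    intro ht
    exact hT (by rw [← ht]; exact t.2)
  have hinj : Function.Injective (pt T N : (T → Fin m) → ℤ × ℤ) := fun g g' h => hinj1 g g' (by rw [h])
  -- decoding
  let dec : Option ℚ → ℚ → (T → Fin m) := fun r x =>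
    if h : ∃ g : T → Fin m, sl r (pt T N g) = x then h.choose else fun _ => Classical.arbitrary _
  have hdec : ∀ r (g : T → Fin m), sl r (pt T N (dec r (sl r (pt T N g)))) = sl r (pt T N g) := by
    intro r g
    have h : ∃ g' : T → Fin m, sl r (pt T N g') = sl r (pt T N g) := ⟨g, rfl⟩
    simp only [dec]
    rw [dif_pos h]
    exact h.choose_spec
  let w : Option ℚ → (Fin n → ℚ) → ℚ := fun r x => sl r (pt T N fun t => τ fun l => dec r (x l) t)
  have himg : ∀ r x, x ∈ A.image (sl r) → ∃ g : T → Fin m, sl r (pt T N g) = x := by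
    intro r x hx
    obtain ⟨a, ha, rfl⟩ := mem_image.1 hx
    obtain ⟨g, _, rfl⟩ := mem_image.1 ha
    exact ⟨g, rfl⟩
  refine ⟨A, w, ?_, ?_, ?_, ?_, ?_, ?_⟩
  · intro r _ x hx
    obtain ⟨g, rfl⟩ := himg r x hx
    change sl r (pt T N fun t => τ fun _ => dec r (sl r (pt T N g)) t) = _
    simp only [hidem]
    exact hdec r g
  · intro r _ x hx y hy i j
    have e : ∀ (i : Fin n) (t : T), (fun l => dec r (Function.update (fun _ : Fin n => x) i y l) t) =
        Function.update (fun _ => dec r x t) i (dec r y t) := by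
      intro i t
      ext1 l
      by_cases h : l = i
      · rw [h, Function.update_self, Function.update_self]
      · rw [Function.update_of_ne h, Function.update_of_ne h]
    change sl r (pt T N fun t => τ fun l => dec r (Function.update (fun _ : Fin n => x) i y l) t) =
      sl r (pt T N fun t => τ fun l => dec r (Function.update (fun _ : Fin n => x) j y l) t)
    simp only [e]
    congr 2
    ext1 t
    exact hwnu i j _ _
  · intro a ha
    choose g hg using fun l => mem_image.1 (ha l)
    refine ⟨pt T N fun t => τ fun l => g l t, mem_image_of_mem _ (mem_univ _), ?_⟩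
    intro r hr
    change _ = sl r (pt T N fun t => τ fun l => dec r (sl r (a l)) t)
    refine sl_pt_congr N fun t ht => ?_
    congr 1
    ext1 l
    rw [← (hg l).2]
    exact (hN r (mem_insert_of_mem hr) _ _ (hdec r (g l)) t ht).symm
  · rw [hA, card_image_of_injective _ hinj]
    simp
  · rw [hA, image_image, card_image_of_injective (univ : Finset (T → Fin m)) (f := sl (some (-1)) ∘ pt T N) (fun g g' h => hinj1 g g' h)]
    simp
  · intro r hr
    -- restriction to the other coordinates
    let ext0 : ({t : T // t.1 ≠ r} → Fin m) → (T → Fin m) := fun h t =>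
      if ht : t.1 ≠ r then h ⟨t, ht⟩ else ⟨0, hm⟩
    have h1 : A.image (sl r) = univ.image fun h : {t : T // t.1 ≠ r} → Fin m => sl r (pt T N (ext0 h)) := by
      ext x
      constructor
      · intro hx
        obtain ⟨g, rfl⟩ := himg r x hx
        refine mem_image.2 ⟨fun t => g t.1, mem_univ _, ?_⟩
        refine sl_pt_congr N fun t ht => ?_
        simp only [ext0]
        rw [dif_pos ht]
      · intro hx
        obtain ⟨h, _, rfl⟩ := mem_image.1 hx
        exact mem_image_of_mem _ (mem_image_of_mem _ (mem_univ _))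
    have h2 : Function.Injective fun h : {t : T // t.1 ≠ r} → Fin m => sl r (pt T N (ext0 h)) := by
      intro h h' hh
      ext1 ⟨t, ht⟩
      have h3 := hN r (mem_insert_of_mem hr) _ _ hh t ht
      simp only [ext0] at h3
      rwa [dif_pos ht, dif_pos ht] at h3
    rw [h1, card_image_of_injective _ h2, card_univ, Fintype.card_fun, Fintype.card_fin]
    congr 1
    have h3 : Fintype.card {t : T // t.1 ≠ r} = Fintype.card T - Fintype.card {t : T // t.1 = r} :=
      Fintype.card_subtype_compl _
    have h4 : Fintype.card {t : T // t.1 = r} = 1 := by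
      rw [Fintype.card_eq_one_iff]
      refine ⟨⟨⟨r, hr⟩, rfl⟩, ?_⟩
      rintro ⟨t, ht⟩
      exact Subtype.ext (Subtype.ext ht)
    rw [h3, h4, Fintype.card_coe]

end Q112.AK
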