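import Pool.Agent.Q112.AK.Core

/-!
Arithmetic Kakeya for sets closed under weak near unanimity operations: the main inequality.
-/

set_option autoImplicit false
set_option linter.unusedSectionVars false

open Finset Relation

namespace Q112.AK

variable {V : Type*} [AddCommGroup V] [Module ℚ V] [DecidableEq V]

/-- **The main inequality.** -/
theorem main {ι : Type*} [Fintype ι] (hι : 2 ≤ Fintype.card ι) (s : ι → ℚ × ℚ)
    (hind : ∀ i j, i ≠ j → (s i).1 * (s j).2 ≠ (s j).1 * (s i).2) {n : ℕ} (hn : 2 ≤ n)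
    (w : ι → (Fin n → V) → V) (A : Finset (V × V))
    (hidem : ∀ i, ∀ x ∈ A.image (pr (s i)), w i (fun _ => x) = x)
    (hwnu : ∃ i0, ∀ x ∈ A.image (pr (s i0)), ∀ y ∈ A.image (pr (s i0)), ∀ i j : Fin n,
      w i0 (Function.update (fun _ => x) i y) = w i0 (Function.update (fun _ => x) j y))
    (hcl : ∀ a : Fin n → V × V, (∀ l, a l ∈ A) →
      ∃ b ∈ A, ∀ i, pr (s i) b = w i fun l => pr (s i) (a l)) :
    A.card ^ (Fintype.card ι - 1) ≤ ∏ i, (A.image (pr (s i))).card := by
  classical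
  rcases A.eq_empty_or_nonempty with rfl | hA
  · rw [card_empty, zero_pow (by omega)]
    exact Nat.zero_le _
  obtain ⟨i0, hi0⟩ := hwnu
  obtain ⟨K, hK⟩ := Nat.exists_eq_add_of_le' (show 1 ≤ Fintype.card ι by omega)
  -- the operation on `A`
  have hcl' : ∀ a : Fin n → V × V, ∃ b, (∀ l, a l ∈ A) →
      b ∈ A ∧ ∀ i, pr (s i) b = w i fun l => pr (s i) (a l) := by
    intro a
    by_cases h : ∀ l, a l ∈ A
    · obtain ⟨b, hb, hb'⟩ := hcl a h
      exact ⟨b, fun _ => ⟨hb, hb'⟩⟩
    · exact ⟨0, fun h' => absurd h' h⟩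
  choose W hW using hcl'
  have hS : Sys s A w W := ⟨fun a ha => (hW a ha).1, fun a ha => (hW a ha).2,
    fun i a ha => hidem i _ (mem_image_of_mem _ ha)⟩
  -- the enumeration
  let e0 : ι ≃ Fin (K + 1) := (Fintype.equivFin ι).trans (finCongr hK)
  let e : Fin (K + 1) ≃ ι := (Equiv.swap 0 (e0 i0)).trans e0.symm
  have he0 : e 0 = i0 := by
    change e0.symm (Equiv.swap 0 (e0 i0) 0) = i0
    rw [Equiv.swap_apply_left, Equiv.symm_apply_apply]
  let f : ℕ → V × V → V := fun j a => if h : j < K + 1 then pr (s (e ⟨j, h⟩)) a else 0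
  have hf : ∀ (j : ℕ) (h : j < K + 1), f j = pr (s (e ⟨j, h⟩)) := by
    intro j h
    ext1 a
    exact dif_pos h
  have h1 := count f K A hA ?_
  · have h2 : ∏ i ∈ range (K + 1), (A.image (f i)).card = ∏ i, (A.image (pr (s i))).card := by
      rw [Finset.prod_range, ← Equiv.prod_comp e]
      refine prod_congr rfl fun i _ => ?_
      rw [hf i.val i.isLt]
    rw [h2] at h1
    rwa [hK, Nat.add_sub_cancel]
  · intro j hj1 hjK a ha b hb hab hfj
    have hj : j < K + 1 := by omega
    rw [hf j hj] at hfj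
    refine key (k := e ⟨j, hj⟩) (I := {i | ∃ i' : Fin (K + 1), i'.val < j ∧ e i' = i}) hS hn ?_
      (i0 := i0) ⟨0, by simpa using (show 0 < j by omega), he0⟩ ?_ ha hb hfj ?_
    · rintro i ⟨i', hi', rfl⟩
      apply hind
      intro h3
      have := congrArg Fin.val (e.injective h3)
      simp only at this
      omega
    · intro x hx y hy i i'
      exact hi0 _ (mem_image_of_mem _ hx) _ (mem_image_of_mem _ hy) i i'
    · refine ReflTransGen.mono (p := Cn s A {i | ∃ i' : Fin (K + 1), i'.val < j ∧ e i' = i}) ?_ _ _ hab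
      rintro u v ⟨hu, hv, i, hi, huv⟩
      have hiK : i < K + 1 := by omega
      rw [hf i hiK] at huv
      exact ⟨hu, hv, e ⟨i, hiK⟩, ⟨⟨i, hiK⟩, hi, rfl⟩, huv⟩

end Q112.AK
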